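import Pool.Agent.W95.BK.Stm

/-!
# BK-MAIN: the assembly
-/

open Polynomial Topology Filter MeasureTheory
open scoped ENNReal

namespace W310.BK.Main

open Pool.Agent.W95.BK

universe u

section
variable {K : Type u} [NontriviallyNormedField K] [IsUltrametricDist K]

lemma tii_hk (hG : S_GLAM.{u}) {x : BA K} (hx : TII x) : HK x := by
  obtain ⟨a, r, hr, -, rfl⟩ := hx
  intro b hb
  have h1 := (hG K a b).2 r hr
  have h2 := (hG K b b).1
  rw [hb, h2, sub_self, norm_zero] at h1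
  have h3 : r ≤ max ‖a - b‖ r := le_max_right _ _
  rw [← h1] at h3
  linarith

variable [IsAlgClosed K]

lemma sum_le (hC : S_C.{u}) (hN : S_NWI.{u}) (f : RMap K) (I : Finset (BA K))
    (hI : ∀ x ∈ I, XF f x) : ∑ x ∈ I, (localDeg f (x : P1B K) - 1) ≤ f.d := by
  obtain ⟨r, hr0, hr⟩ : ∃ r : ℝ, 0 < r ∧ ∀ x ∈ I, lam x 0 < r := by
    refine ⟨1 + ∑ x ∈ I, lam x 0, ?_, ?_⟩
    · have : 0 ≤ ∑ x ∈ I, lam x 0 := Finset.sum_nonneg fun x _ => x.nonneg' _
      linarith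
    · intro x hx
      have := Finset.single_le_sum (f := fun x : BA K => lam x 0) (fun y _ => y.nonneg' _) hx
      linarith
  have h := hC K f I ∅ 0 r hI (by simp) (by simp) (by simp) hr (by simp) hr0
  rw [Finset.sum_empty, add_zero] at h
  have h2 := (hN K f 0 r hr0).1
  omega

lemma finXF (hC : S_C.{u}) (hN : S_NWI.{u}) (f : RMap K) : {x : BA K | XF f x}.Finite := by
  by_contra h
  obtain ⟨I, hI, hc⟩ := Set.Infinite.exists_subset_card_eq h (f.d + 1)
  have h1 := sum_le hC hN f I (fun x hx => hI hx)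
  have h2 : I.card ≤ ∑ x ∈ I, (localDeg f (x : P1B K) - 1) := by
    rw [Finset.card_eq_sum_ones]
    refine Finset.sum_le_sum fun x hx => ?_
    have h3 : XF f x := hI hx
    have := h3.2.2
    omega
  omega

lemma perm (hV : S_INVX.{u}) (hF : S_FUNC.{u}) (hT : S_ITER.{u}) (R : RMap K) (hR : 2 ≤ R.d)
    (n : ℕ) (hn : 1 ≤ n) (X : Finset (BA K)) (hX : ∀ x, x ∈ X ↔ XF (R.iter n) x) :
    ∃ σ : BA K → BA K, (∀ x ∈ X, R.act (x : P1B K) = ((σ x : BA K) : P1B K)) ∧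
      ∀ g : BA K → ℝ, ∑ x ∈ X, (localDeg (R.iter n) (x : P1B K) : ℝ) * g (σ x) =
        ∑ x ∈ X, (localDeg (R.iter n) (x : P1B K) : ℝ) * g x := by
  classical
  have h1 : ∀ x : BA K, ∃ y : BA K, XF (R.iter n) x → R.act (x : P1B K) = (y : P1B K) ∧
      XF (R.iter n) y ∧ localDeg (R.iter n) (y : P1B K) = localDeg (R.iter n) (x : P1B K) := by
    intro x
    by_cases hx : XF (R.iter n) x
    · obtain ⟨y, hy⟩ := hV K R n x hR hn hx
      exact ⟨y, fun _ => hy⟩
    · exact ⟨x, fun h => absurd h hx⟩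
  choose σ hσ using h1
  have hinj : Set.InjOn σ (X : Set (BA K)) := by
    intro x hx y hy hxy
    have hx' := (hX x).1 hx
    have hy' := (hX y).1 hy
    have e : R.iter n = (R.iter (n - 1)).comp R := by
      have h2 := (hT K R).2.1 (n - 1) 1
      rw [(hT K R).2.2.2] at h2
      have h3 : n - 1 + 1 = n := by omega
      rwa [h3] at h2
    have ex : ∀ z : BA K, XF (R.iter n) z →
        (R.iter (n - 1)).act ((σ z : BA K) : P1B K) = (z : P1B K) := by
      intro z hz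
      have h2 := hz.2.1
      rw [e, (hF K).1, (hσ z hz).1] at h2
      exact h2
    have h3 := ex x hx'
    rw [hxy, ex y hy'] at h3
    exact OnePoint.coe_injective h3.symm
  have himg : X.image σ = X := by
    refine Finset.eq_of_subset_of_card_le ?_ (Finset.card_image_of_injOn hinj).ge
    intro y hy
    obtain ⟨x, hx, rfl⟩ := Finset.mem_image.1 hy
    exact (hX _).2 (hσ x ((hX x).1 hx)).2.1
  refine ⟨σ, fun x hx => (hσ x ((hX x).1 hx)).1, fun g => ?_⟩
  calc ∑ x ∈ X, (localDeg (R.iter n) (x : P1B K) : ℝ) * g (σ x)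
      = ∑ x ∈ X, (localDeg (R.iter n) ((σ x : BA K) : P1B K) : ℝ) * g (σ x) := by
        refine Finset.sum_congr rfl fun x hx => ?_
        rw [(hσ x ((hX x).1 hx)).2.2]
    _ = ∑ y ∈ X.image σ, (localDeg (R.iter n) (y : P1B K) : ℝ) * g y := by
        rw [Finset.sum_image hinj]
    _ = _ := by rw [himg]

lemma iterSum (hF : S_FUNC.{u}) (R : RMap K) (X : Finset (BA K)) (m : BA K → ℝ)
    (h1 : ∀ ψ : P1B K → ℝ, ∑ x ∈ X, m x * ψ (R.act (x : P1B K)) = ∑ x ∈ X, m x * ψ (x : P1B K))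
    (j : ℕ) : ∀ ψ : P1B K → ℝ, ∑ x ∈ X, m x * ψ ((R.iter j).act (x : P1B K)) =
      ∑ x ∈ X, m x * ψ (x : P1B K) := by
  induction j with
  | zero =>
    intro ψ
    refine Finset.sum_congr rfl fun x _ => ?_
    have : (R.iter 0).act (x : P1B K) = (x : P1B K) := (hF K).2 _
    rw [this]
  | succ j ih =>
    intro ψ
    have h2 : ∀ x : P1B K, (R.iter (j + 1)).act x = R.act ((R.iter j).act x) :=
      fun x => (hF K).1 R (R.iter j) x
    simp only [h2]
    rw [ih (fun z => ψ (R.act z))]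
    exact h1 ψ

lemma avgSum (hF : S_FUNC.{u}) (R : RMap K) (X : Finset (BA K)) (m : BA K → ℝ)
    (h1 : ∀ ψ : P1B K → ℝ, ∑ x ∈ X, m x * ψ (R.act (x : P1B K)) = ∑ x ∈ X, m x * ψ (x : P1B K))
    (k : ℕ) (hk : 1 ≤ k) (ψ : P1B K → ℝ) :
    ∑ x ∈ X, m x * ((∑ j ∈ Finset.range k, ψ ((R.iter j).act (x : P1B K))) / k) =
      ∑ x ∈ X, m x * ψ (x : P1B K) := by
  have hk' : (k : ℝ) ≠ 0 := by
    have : k ≠ 0 := by omega
    exact_mod_cast this
  have e : ∑ x ∈ X, m x * ((∑ j ∈ Finset.range k, ψ ((R.iter j).act (x : P1B K))) / k) =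
      (∑ j ∈ Finset.range k, ∑ x ∈ X, m x * ψ ((R.iter j).act (x : P1B K))) / k := by
    rw [Finset.sum_comm, Finset.sum_div]
    refine Finset.sum_congr rfl fun x _ => ?_
    rw [← Finset.mul_sum, mul_div_assoc]
  rw [e, Finset.sum_congr rfl fun j _ => iterSum hF R X m h1 j ψ, Finset.sum_const,
    Finset.card_range, nsmul_eq_mul, mul_div_assoc, mul_div_cancel₀]
  exact hk'

lemma logsum (hO : S_ONE.{u}) (hSp : S_SPHC.{u}) (hG : S_GLAM.{u}) (R : RMap K)
    (hw : wr R ≠ 0) (X : Finset (BA K)) (m : BA K → ℝ) (hm : ∀ x ∈ X, 0 ≤ m x)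
    (hX : ∀ x ∈ X, TII x) (σ : BA K → BA K)
    (hσ : ∀ x ∈ X, R.act (x : P1B K) = ((σ x : BA K) : P1B K))
    (hg : ∀ g : BA K → ℝ, ∑ x ∈ X, m x * g (σ x) = ∑ x ∈ X, m x * g x) :
    ∑ x ∈ X, m x * Real.log (sphDeriv R (x : P1B K)) ≤ 0 := by
  obtain ⟨B, -, hB⟩ := hO K R
  have h1 : ∀ x ∈ X, m x * Real.log (sphDeriv R (x : P1B K)) ≤
      m x * Real.log (dl (σ x)) - m x * Real.log (dl x) := by
    intro x hx
    have h2 := hB x (σ x) (hX x hx) (hσ x hx)
    have h3 : 0 < sphDeriv R (x : P1B K) := ((hSp K R).2.2 hw).1 x (tii_hk hG (hX x hx))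
    have h4 : 0 < dl x := h2.1
    have h5 := Real.log_le_log (mul_pos h3 h4) h2.2.2.2.2.2
    rw [Real.log_mul h3.ne' h4.ne'] at h5
    rw [← mul_sub]
    exact mul_le_mul_of_nonneg_left (by linarith) (hm x hx)
  calc _ ≤ ∑ x ∈ X, (m x * Real.log (dl (σ x)) - m x * Real.log (dl x)) :=
        Finset.sum_le_sum h1
    _ = 0 := by
        rw [Finset.sum_sub_distrib, hg (fun x => Real.log (dl x)), sub_self]

lemma contInt (ρ : Measure (P1B K)) [IsProbabilityMeasure ρ] (φ : C(P1B K, ℝ)) :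
    Integrable φ ρ := by
  have := (BoundedContinuousFunction.mkOfCompact φ).integrable ρ
  exact this

lemma nullset (hSp : S_SPHC.{u}) (hA : S_NOAT.{u}) (R : RMap K) (hR : 2 ≤ R.d)
    (hw : wr R ≠ 0) (ρ : Measure (P1B K)) (hρ : IsProbabilityMeasure ρ)
    (hE : IsEquilibrium R ρ) : ρ {x : P1B K | sphDeriv R x = 0} = 0 := by
  classical
  have hA' := hA K R hR ρ hρ hE
  refine measure_mono_null ((hSp K R).2.2 hw).2 ?_
  refine measure_union_null hA'.1 ?_
  have h1 : {x : P1B K | ∃ c : K, (wr R).eval c = 0 ∧ x = ((cl c : BA K) : P1B K)} ⊆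
      ⋃ c ∈ (wr R).roots.toFinset, {((cl c : BA K) : P1B K)} := by
    rintro x ⟨c, hc, rfl⟩
    refine Set.mem_biUnion (x := c) ?_ (Set.mem_singleton _)
    simp only [Finset.mem_coe, Multiset.mem_toFinset]
    exact (mem_roots hw).2 hc
  refine measure_mono_null h1 ?_
  refine (measure_biUnion_null_iff (Finset.countable_toSet _)).2 fun c _ => hA'.2 c

/-- The eventual bound. -/
theorem key (hUB : S_UB.{u}) (hMIX : S_MIX.{u}) (hUI : S_UI.{u}) (hO : S_ONE.{u})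
    (hV : S_INVX.{u}) (hSp : S_SPHC.{u}) (hT : S_ITER.{u}) (hAC : S_ACTC.{u})
    (hF : S_FUNC.{u}) (hA : S_NOAT.{u}) (hG : S_GLAM.{u})
    (R : RMap K) (hR : 2 ≤ R.d) (ρ : Measure (P1B K))
    (hρ : IsProbabilityMeasure ρ) (hE : IsEquilibrium R ρ)
    (hchi : 0 < ∫ x, Real.log (sphDeriv R x) ∂ρ) (ε : ℝ) (hε : 0 < ε) :
    ∀ᶠ n in atTop, ∀ X : Finset (BA K), (∀ x, x ∈ X ↔ XF (R.iter n) x) →
      ∑ x ∈ X, (localDeg (R.iter n) (x : P1B K) : ℝ) ≤ ε * (R.d : ℝ) ^ n := by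
  set χ : ℝ := ∫ x, Real.log (sphDeriv R x) ∂ρ with hχ
  have hw : wr R ≠ 0 := by
    intro h0
    have h1 : ∀ x : P1B K, Real.log (sphDeriv R x) = 0 := by
      intro x
      have h2 : sphDeriv R x = 0 := by
        induction x using OnePoint.rec with
        | infty => simp [sphDeriv, h0]
        | coe y => simp [sphDeriv, h0, BA.map_zero]
      rw [h2, Real.log_zero]
    simp only [h1, integral_zero] at hχ
    linarith
  have hint : Integrable (fun x => Real.log (sphDeriv R x)) ρ := by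
    by_contra h
    rw [integral_undef h] at hχ
    linarith
  set e₁ : ℝ := ε * χ / 5 with he₁
  have he₁0 : 0 < e₁ := by positivity
  obtain ⟨M, hM, hMn⟩ := hUI K R hR hw e₁ he₁0
  have hTc : Continuous (trunc R M) := by
    unfold trunc
    refine Continuous.log ((hSp K R).1.max continuous_const) fun x => ?_
    exact (lt_of_lt_of_le (Real.exp_pos _) (le_max_right _ _)).ne'
  set T : C(P1B K, ℝ) := ⟨trunc R M, hTc⟩ with hTdef
  have hTχ : χ ≤ ∫ z, T z ∂ρ := by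
    rw [hχ]
    refine integral_mono_ae hint (contInt ρ T) ?_
    have h0 := nullset hSp hA R hR hw ρ hρ hE
    have h1 : ∀ᵐ x ∂ρ, ¬ (sphDeriv R x = 0) := by
      rw [ae_iff]
      simpa using h0
    filter_upwards [h1] with x hx
    have h2 : 0 < sphDeriv R x := lt_of_le_of_ne ((hSp K R).2.1 x) (Ne.symm hx)
    exact Real.log_le_log h2 (le_max_left _ _)
  obtain ⟨k, hk1, hk⟩ := hMIX K R hR ρ hρ hE T e₁ he₁0
  set Tb : ℝ := ∫ z, T z ∂ρ with hTb
  have hφc : Continuous (fun x : P1B K =>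
      |(∑ j ∈ Finset.range k, T ((R.iter j).act x)) / k - Tb|) := by
    refine Continuous.abs (Continuous.sub (Continuous.div_const ?_ _) continuous_const)
    refine continuous_finsetSum _ fun j _ => ?_
    exact T.continuous.comp (hAC K (R.iter j))
  set φ : C(P1B K, ℝ) := ⟨_, hφc⟩ with hφdef
  have hφ0 : ∀ x, 0 ≤ φ x := fun x => abs_nonneg _
  have hUB' := hUB K R hR ρ hρ hE φ hφ0 e₁ he₁0
  filter_upwards [hMn, hUB', eventually_ge_atTop 1] with n h1 h2 hn X hX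
  have hXF : ∀ x ∈ X, XF (R.iter n) x := fun x hx => (hX x).1 hx
  obtain ⟨σ, hσ, hg⟩ := perm hV hF hT R hR n hn X hX
  set m : BA K → ℝ := fun x => (localDeg (R.iter n) (x : P1B K) : ℝ) with hmdef
  have hm2 : ∀ x ∈ X, 2 ≤ m x := by
    intro x hx
    have := (hXF x hx).2.2
    simp only [hmdef]
    exact_mod_cast this
  have hperm : ∀ ψ : P1B K → ℝ, ∑ x ∈ X, m x * ψ (R.act (x : P1B K)) =
      ∑ x ∈ X, m x * ψ (x : P1B K) := by
    intro ψ
    rw [← hg (fun x => ψ (x : P1B K))]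
    refine Finset.sum_congr rfl fun x hx => ?_
    rw [hσ x hx]
  have hlog := logsum hO hSp hG R hw X m (fun x hx => by linarith [hm2 x hx])
    (fun x hx => (hXF x hx).1) σ hσ hg
  have h3 := h1 X hXF
  have h4 := h2 X hXF
  have hdn : (0 : ℝ) < (R.d : ℝ) ^ n := by
    have : (0 : ℝ) < R.d := by
      have : 0 < R.d := by omega
      exact_mod_cast this
    positivity
  -- sum of m T
  have h5 : ∑ x ∈ X, m x * T (x : P1B K) ≤ e₁ * (R.d : ℝ) ^ n := by
    have e : ∑ x ∈ X, m x * (trunc R M (x : P1B K) - Real.log (sphDeriv R (x : P1B K))) =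
        ∑ x ∈ X, m x * T (x : P1B K) - ∑ x ∈ X, m x * Real.log (sphDeriv R (x : P1B K)) := by
      rw [← Finset.sum_sub_distrib]
      refine Finset.sum_congr rfl fun x _ => ?_
      rw [mul_sub]
      rfl
    have h6 : ∑ x ∈ X, m x * (trunc R M (x : P1B K) - Real.log (sphDeriv R (x : P1B K))) ≤
        e₁ * (R.d : ℝ) ^ n := h3
    rw [e] at h6
    linarith
  have h7 : ∑ x ∈ X, m x * T (x : P1B K) ≥ (∑ x ∈ X, m x) * Tb -
      2 * ∑ x ∈ X, (m x - 1) * φ (x : P1B K) := by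
    rw [← avgSum hF R X m hperm k hk1 T, Finset.sum_mul, Finset.mul_sum,
      ← Finset.sum_sub_distrib]
    refine Finset.sum_le_sum fun x hx => ?_
    have h8 : φ (x : P1B K) =
      |(∑ j ∈ Finset.range k, T ((R.iter j).act (x : P1B K))) / k - Tb| := rfl
    have h9 := hm2 x hx
    have h10 := neg_abs_le ((∑ j ∈ Finset.range k, T ((R.iter j).act (x : P1B K))) / k - Tb)
    rw [← h8] at h10
    have h11 := hφ0 (x : P1B K)
    nlinarith
  have h12 : ∑ x ∈ X, (m x - 1) * φ (x : P1B K) ≤ (R.d : ℝ) ^ n * (2 * e₁) := by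
    refine le_trans h4 (mul_le_mul_of_nonneg_left ?_ hdn.le)
    have : ∫ x, φ x ∂ρ ≤ e₁ := hk
    linarith
  have hS0 : 0 ≤ ∑ x ∈ X, m x := Finset.sum_nonneg fun x hx => by linarith [hm2 x hx]
  have h13 : (∑ x ∈ X, m x) * χ ≤ (∑ x ∈ X, m x) * Tb := mul_le_mul_of_nonneg_left hTχ hS0
  have h14 : (∑ x ∈ X, m x) * χ ≤ 5 * e₁ * (R.d : ℝ) ^ n := by linarith
  have h15 : 5 * e₁ = ε * χ := by rw [he₁]; ring
  rw [h15] at h14
  have h16 : (∑ x ∈ X, m x) * χ ≤ (ε * (R.d : ℝ) ^ n) * χ := by linarith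
  exact le_of_mul_le_mul_right h16 hchi

end

theorem main : S_UB.{u} → S_MIX.{u} → S_UI.{u} → S_ONE.{u} → S_INVX.{u} → S_TYPE2.{u} →
    S_SPHC.{u} → S_ITER.{u} → S_ACTC.{u} → S_ACT.{u} → S_FUNC.{u} → S_C.{u} → S_NWI.{u} →
    S_NOAT.{u} → S_INVM.{u} → S_GLAM.{u} → S_AVOID.{u} → S_MAIN.{u} := by
  intro hUB hMIX hUI hO hV hT2 hSp hT hAC _ hF hC hN hA _ hG _
  intro K _ _ _ _ R hR ρ hρ hE hchi
  classical
  set X : ℕ → Finset (BA K) := fun n => (finXF hC hN (R.iter n)).toFinset with hXdef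
  have hX : ∀ n x, x ∈ X n ↔ XF (R.iter n) x := by
    intro n x
    simp [hXdef]
  set s : ℕ → ℝ := fun n => ∑ x ∈ X n, (localDeg (R.iter n) (x : P1B K) : ℝ) with hs
  have hd0 : (0 : ℝ) < R.d := by
    have : 0 < R.d := by omega
    exact_mod_cast this
  have hs0 : ∀ n, 0 ≤ s n := fun n => Finset.sum_nonneg fun x _ => Nat.cast_nonneg _
  have hlim : Tendsto (fun n => s n / (R.d : ℝ) ^ n) atTop (𝓝 0) := by
    rw [Metric.tendsto_atTop]
    intro ε hε
    obtain ⟨N, hN'⟩ := eventually_atTop.1 (key hUB hMIX hUI hO hV hSp hT hAC hF hA hG R hR ρ hρ hE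
      hchi (ε / 2) (by linarith))
    refine ⟨N, fun n hn => ?_⟩
    have h1 := hN' n hn (X n) (hX n)
    have hdn : (0 : ℝ) < (R.d : ℝ) ^ n := by positivity
    rw [Real.dist_eq, sub_zero, abs_of_nonneg (div_nonneg (hs0 n) hdn.le)]
    have h2 : s n / (R.d : ℝ) ^ n ≤ ε / 2 := by
      rw [div_le_iff₀ hdn]
      exact h1
    linarith
  have hlim2 := ENNReal.tendsto_ofReal hlim
  rw [ENNReal.ofReal_zero] at hlim2
  refine hlim2.congr' ?_
  filter_upwards [eventually_ge_atTop 1] with n hn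
  have hset : RFixH (R.iter n) =
      (((X n).image (fun x : BA K => (x : P1B K)) : Finset (P1B K)) : Set (P1B K)) := by
    ext z
    simp only [Finset.coe_image, Set.mem_image, Finset.mem_coe, hX]
    constructor
    · rintro ⟨y, hy, rfl, h1, h2⟩
      refine ⟨y, ⟨?_, h1, h2⟩, rfl⟩
      refine hT2 K (R.iter n) y ?_ hy h1 h2
      rw [(hT K R).1 n]
      calc 2 ≤ R.d := hR
        _ = R.d ^ 1 := (pow_one _).symm
        _ ≤ R.d ^ n := Nat.pow_le_pow_right (by omega) hn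
    · rintro ⟨y, ⟨hy, h1, h2⟩, rfl⟩
      exact ⟨y, tii_hk hG hy, rfl, h1, h2⟩
  have htsum : ∑' x : RFixH (R.iter n), (localDeg (R.iter n) x : ℝ≥0∞) =
      ∑ x ∈ X n, (localDeg (R.iter n) (x : P1B K) : ℝ≥0∞) := by
    rw [hset, Finset.tsum_subtype' ((X n).image (fun x : BA K => (x : P1B K)))
      (fun z => (localDeg (R.iter n) z : ℝ≥0∞)), Finset.sum_image]
    intro a _ b _ hab
    exact OnePoint.coe_injective hab
  rw [htsum]
  have hdn : (0 : ℝ) < (R.d : ℝ) ^ n := by positivity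
  rw [ENNReal.ofReal_div_of_pos hdn, ENNReal.ofReal_pow hd0.le, ENNReal.ofReal_natCast]
  congr 1
  simp only [hs]
  rw [ENNReal.ofReal_sum_of_nonneg (fun x _ => Nat.cast_nonneg _)]
  refine Finset.sum_congr rfl fun x _ => ?_
  rw [ENNReal.ofReal_natCast]

end W310.BK.Main
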